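import Mathlib
import Pool.Agent.Lib.MP_748296_nt.H2.Final

namespace Pool.Agent.Results.MP_748296_nt.FullAnswer

open Finset

/-- `binom(a,k) = a (a-1) ... (a-k+1) / k!` for a rational `a`. -/
def binom (a : ℚ) (k : ℕ) : ℚ := (∏ i ∈ range k, (a - i)) / (k.factorial : ℚ)

/-- `S_1(p) = ∑_{k<p} binom(-1/3,k) binom(-1/6,k) (-80)^(-k)`. -/
def S1 (p : ℕ) : ℚ := ∑ k ∈ range p, binom (-1 / 3) k * binom (-1 / 6) k * (1 / (-80) ^ k)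

/-- `S_2(p) = ∑_{k<p} binom(-2/3,k) binom(-5/6,k) (-80)^(-k)`. -/
def S2 (p : ℕ) : ℚ := ∑ k ∈ range p, binom (-2 / 3) k * binom (-5 / 6) k * (1 / (-80) ^ k)

/-- `a ≡ b (mod p^m)` in `ℤ_(p)`: `a - b = p^m c/d` with integers `c, d`, `d` prime to `p`. -/
def ModP (p m : ℕ) (a b : ℚ) : Prop := ∃ c d : ℤ, ¬ (p : ℤ) ∣ d ∧ (a - b) * d = (p : ℚ) ^ m * c

theorem result : ∀ p : ℕ, p.Prime → 5 < p →
    -- p ≡ 1, 19 (mod 30)
    ((p % 30 = 1 ∨ p % 30 = 19) →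
      (∃ x y : ℤ, 4 * (p : ℤ) = x ^ 2 + 75 * y ^ 2 ∧ x % 3 = 2) ∧
      ∀ x y : ℤ, 4 * (p : ℤ) = x ^ 2 + 75 * y ^ 2 → x % 3 = 2 →
        ¬ (p : ℤ) ∣ x ∧ ModP p 2 (S1 p) ((x : ℚ) - p / x) ∧
          ModP p 2 ((jacobiSym 5 p : ℚ) * S2 p) ((x : ℚ) - p / x)) ∧
    -- p ≡ 7, 13 (mod 30)
    ((p % 30 = 7 ∨ p % 30 = 13) →
      (∃ x y : ℤ, 4 * (p : ℤ) = 25 * x ^ 2 + 3 * y ^ 2 ∧ x % 3 = 1) ∧
      ∀ x y : ℤ, 4 * (p : ℤ) = 25 * x ^ 2 + 3 * y ^ 2 → x % 3 = 1 →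
        ¬ (p : ℤ) ∣ x ∧ ModP p 2 (S1 p) (5 * (x : ℚ) - p / (5 * x)) ∧
          ModP p 2 ((jacobiSym 5 p : ℚ) * S2 p) (5 * (x : ℚ) - p / (5 * x))) ∧
    -- p ≡ 17, 23 (mod 30)
    ((p % 30 = 17 ∨ p % 30 = 23) →
      ModP p 1 (S1 p) 0 ∧ ModP p 1 ((jacobiSym 5 p : ℚ) * S2 p) 0) := by
  intro p hp hp5
  have : Fact p.Prime := ⟨hp⟩
  have hpZ : Prime (p : ℤ) := Nat.prime_iff_prime_int.1 hp
  have hleg : legendreSym p 5 = jacobiSym 5 p := jacobiSym.legendreSym.to_jacobiSym p 5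
  have small : ∀ l : ℤ, 0 < l → l ≤ 5 → ¬ (p : ℤ) ∣ l := by
    intro l h0 h5 h
    have := Int.le_of_dvd h0 h
    omega
  have hsq : ∀ y : ℤ, (p : ℤ) ∣ y → ∀ t : ℤ, 4 * (p : ℤ) ≠ (p : ℤ) ^ 2 * t := by
    intro y _ t h
    have hp0 : (p : ℤ) ≠ 0 := hpZ.ne_zero
    have h1 : (4 : ℤ) = p * t := by
      apply mul_left_cancel₀ hp0; linear_combination h
    exact small 4 (by norm_num) (by norm_num) ⟨t, h1⟩
  have h75 : ∀ y : ℤ, (p : ℤ) ∣ 75 * y ^ 2 → (p : ℤ) ∣ y := by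
    intro y h
    rcases hpZ.dvd_or_dvd h with h | h
    · exfalso
      have h2 : (p : ℤ) ∣ 3 * (5 * 5) := by norm_num; exact h
      rcases hpZ.dvd_or_dvd h2 with h | h
      · exact small 3 (by norm_num) (by norm_num) h
      · rcases hpZ.dvd_or_dvd h with h | h <;> exact small 5 (by norm_num) (by norm_num) h
    · exact hpZ.dvd_of_dvd_pow h
  have h3 : ∀ y : ℤ, (p : ℤ) ∣ 3 * y ^ 2 → (p : ℤ) ∣ y := by
    intro y h
    rcases hpZ.dvd_or_dvd h with h | h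
    · exact absurd h (small 3 (by norm_num) (by norm_num))
    · exact hpZ.dvd_of_dvd_pow h
  have hJ := Pool.Agent.Lib.MP_748296_nt.H21.modJ
  refine ⟨?_, ?_, ?_⟩
  · intro hmod
    obtain ⟨m, hm⟩ : ∃ m, p = 6 * m + 1 := ⟨p / 6, by omega⟩
    obtain ⟨u, hu, hX⟩ := Pool.Agent.Lib.MP_748296_nt.H2.one_final p hp5 m hm
    obtain ⟨hex, hall⟩ := (hJ p (2 * m) hp hp5 (by omega) u hu).1 (by omega)
    refine ⟨hex, ?_⟩
    intro x y hxy hx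
    have hpx : ¬ (p : ℤ) ∣ x := by
      intro h
      obtain ⟨a, rfl⟩ := h
      obtain ⟨b, rfl⟩ := h75 y ⟨4 - p * a ^ 2, by linear_combination -hxy⟩
      exact hsq _ (dvd_refl _) (a ^ 2 + 75 * b ^ 2) (by linear_combination hxy)
    have h := hX x hpx (hall x y hxy hx)
    rw [hleg] at h
    exact ⟨hpx, h.1, h.2⟩
  · intro hmod
    obtain ⟨m, hm⟩ : ∃ m, p = 6 * m + 1 := ⟨p / 6, by omega⟩
    obtain ⟨u, hu, hX⟩ := Pool.Agent.Lib.MP_748296_nt.H2.one_final p hp5 m hm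
    obtain ⟨hex, hall⟩ := (hJ p (2 * m) hp hp5 (by omega) u hu).2 (by omega)
    refine ⟨hex, ?_⟩
    intro x y hxy hx
    have hpx : ¬ (p : ℤ) ∣ x := by
      intro h
      obtain ⟨a, rfl⟩ := h
      obtain ⟨b, rfl⟩ := h3 y ⟨4 - 25 * (p * a ^ 2), by linear_combination -hxy⟩
      exact hsq _ (dvd_refl _) (25 * a ^ 2 + 3 * b ^ 2) (by linear_combination hxy)
    have hp5x : ¬ (p : ℤ) ∣ 5 * x := by
      intro h
      rcases hpZ.dvd_or_dvd h with h | h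
      · exact small 5 (by norm_num) (by norm_num) h
      · exact hpx h
    have h := hX (5 * x) hp5x (hall x y hxy hx)
    rw [hleg] at h
    have e : (((5 * x : ℤ) : ℚ)) = 5 * (x : ℚ) := by push_cast; ring
    rw [e] at h
    exact ⟨hpx, h.1, h.2⟩
  · intro hmod
    have h := Pool.Agent.Lib.MP_748296_nt.H2.two_final p hp5 (by omega)
    rw [hleg] at h
    exact ⟨h.1, h.2⟩

end Pool.Agent.Results.MP_748296_nt.FullAnswer
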